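import Pool.Agent.V1167.GL.Dir
import Pool.Agent.W189.NF.LSer

/-!
# Analytic continuation of `L(E, s)` over number fields and Gaussian sums of its coefficients

Let `E` be an elliptic curve over a number field `K` and `L(E, s) = ∑ a_n n^{-s}` its `L`-series, the Euler product over
all primes of `K`, including the primes of bad reduction and those above `2` and `3` (Mathlib's
`WeierstrassCurve.LSeries`, with the integers `a_n = E.LFunction n`). For `K ≠ ℚ` its analytic continuation is not known
in general. For real `A ≥ 0` and `T > 0` consider the absolutely convergent Gaussian sum of the coefficients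

`G_A(T) = (4πT)^{-1/2} ∑_n a_n (log n) n^A exp(-(log n)² / (4T))`.

(1) `L(E, s)` has a continuation to an entire function (the question) IF AND ONLY IF for every `A ≥ 0` (equivalently:
for arbitrarily large `A`) the sum `G_A(T)` grows subexponentially: `G_A(T) = O(exp(ε T))` for every `ε > 0`. (The trivial
bound is `exp(c T)` with `c` of order `A²`.)

(2) More precisely, for all `A, θ ≥ 0`: `L(E, s)` has a holomorphic continuation to the convex region bounded by a branch
of a hyperbola, `Re (s + A)² > θ`, `Re s > -A` (for `θ = 0`: the sector `|Im s| < Re s + A`), if and only if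
`G_A(T) = O(exp((θ + ε) T))` for every `ε > 0`. So the exponential growth rates of `G_A(T)`, `A ≥ 0`, which is computed from
the numbers of points of `E` modulo the primes, determine how far `L(E, s)` can be continued.

The criterion is linear in the coefficients: no zeros, no growth condition on the continuation (it may be of infinite
order), no functional equation, no modularity. The library `Pool.Agent.V11291.GS` treats in the same way the sums over
prime powers, that is the logarithm of an Euler product, and its divisor (hand-ins `MP_eea520_nt.GaussianPrimeSums`,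
`MP_7193be_nt.GaussianPointCounts`); here the series itself is treated, poles of the logarithm at the zeros do not
appear, so that holomorphic continuation is characterised, with the sharp region for every exponent `θ`.
-/

set_option autoImplicit false

namespace Pool.Agent.Results.MP_7ed9c3_nt.GaussianCoefficients

open Filter Topology Set NumberField

variable {K : Type} [Field K] [NumberField K]

/-- The Gaussian sum `G_A(T)` of the coefficients `a_n` of `L(E, s)`. -/
noncomputable def gauss (E : WeierstrassCurve K) (A T : ℝ) : ℝ :=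
  (Real.sqrt (4 * Real.pi * T))⁻¹ * ∑' n : ℕ, (E.LFunction n : ℝ) *
    (Real.log n * (n : ℝ) ^ A * Real.exp (-(Real.log n ^ 2 / (4 * T))))

/-- `G_A(T) = O(exp((θ + ε) T))` for every `ε > 0`. -/
def GrowsAtMost (E : WeierstrassCurve K) (A θ : ℝ) : Prop :=
  ∀ ε : ℝ, 0 < ε → ∃ C : ℝ, ∀ᶠ T : ℝ in atTop, |gauss E A T| ≤ C * Real.exp ((θ + ε) * T)

/-- The region `Re (s + A)² > θ`, `Re s > -A`. -/
def Region (A θ : ℝ) : Set ℂ := {s | -A < s.re ∧ θ < ((s + A) ^ 2).re}

/-- `F` agrees with `L(E, s)` for `Re s > 2`. -/
def Agrees (E : WeierstrassCurve K) (F : ℂ → ℂ) : Prop := ∀ s : ℂ, 2 < s.re → F s = E.LSeries s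

open Pool.Agent.V1167.GL

lemma hyp_eq {A θ : ℝ} (hθ : 0 ≤ θ) : Hyp A θ = Region A θ := by
  ext s
  change s + A ∈ Pool.Agent.V11291.GS.W θ ↔ -A < s.re ∧ θ < ((s + A) ^ 2).re
  rw [Pool.Agent.V11291.GS.W_iff hθ, Complex.add_re, Complex.ofReal_re]
  constructor
  · rintro ⟨h1, h2⟩
    exact ⟨by linarith, h2⟩
  · rintro ⟨h1, h2⟩
    exact ⟨by linarith, h2⟩

/-- the coefficients -/
noncomputable def co (E : WeierstrassCurve K) (n : ℕ) : ℂ := ((E.LFunction n : ℤ) : ℂ)

lemma co_sum (E : WeierstrassCurve K) (σ : ℝ) (hσ : 2 < σ) : LSeriesSummable (co E) σ :=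
  (Pool.Agent.W189.NF.LSeries_hasProd E (s := (σ : ℂ)) (by simpa using hσ)).1

lemma gauss_eq (E : WeierstrassCurve K) (A T : ℝ) : (gauss E A T : ℂ) = gs (co E) A T := by
  unfold gauss gs co
  rw [Complex.ofReal_mul, Complex.ofReal_tsum]
  congr 1
  refine tsum_congr fun n => ?_
  push_cast
  ring

lemma grows_iff (E : WeierstrassCurve K) (A θ : ℝ) : GrowsAtMost E A θ ↔ Pool.Agent.V1167.GL.Sub (gs (co E) A) θ := by
  unfold GrowsAtMost Pool.Agent.V1167.GL.Sub
  simp only [← gauss_eq, Complex.norm_real, Real.norm_eq_abs]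

/-- **Theorem.** Let `E` be an elliptic curve over a number field `K`.

(0) For `Re s > 2` the series `L(E, s) = ∑ a_n n^{-s}` converges absolutely.

(1) There is an entire function which agrees with `L(E, s)` if and only if for every `A ≥ 0` the Gaussian sum `G_A(T)` is
`O(exp(ε T))` for every `ε > 0`; it suffices to have this for arbitrarily large `A`.

(2) For all `A, θ ≥ 0` there is a function which is holomorphic in the union of the half plane `Re s > 2` and the region
`Re (s + A)² > θ`, `Re s > -A`, and agrees with `L(E, s)`, if and only if `G_A(T) = O(exp((θ + ε) T))` for every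
`ε > 0`. -/
theorem result (E : WeierstrassCurve K) [E.IsElliptic] :
    (∀ s : ℂ, 2 < s.re → LSeriesSummable (fun n => ((E.LFunction n : ℤ) : ℂ)) s) ∧
    ((∃ F : ℂ → ℂ, Differentiable ℂ F ∧ Agrees E F) ↔ ∀ A : ℝ, 0 ≤ A → GrowsAtMost E A 0) ∧
    ((∃ F : ℂ → ℂ, Differentiable ℂ F ∧ Agrees E F) ↔
      ∀ A₀ : ℝ, ∃ A : ℝ, A₀ ≤ A ∧ 0 ≤ A ∧ GrowsAtMost E A 0) ∧
    ∀ A θ : ℝ, 0 ≤ A → 0 ≤ θ →
      ((∃ F : ℂ → ℂ, (∀ s : ℂ, s ∈ Region A θ ∨ 2 < s.re → DifferentiableAt ℂ F s) ∧
        Agrees E F) ↔ GrowsAtMost E A θ) := by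
  obtain ⟨h1, h2⟩ := dir_entire (a := co E) (σa := 2) (by norm_num) (co_sum E)
  simp only [← grows_iff] at h1 h2
  refine ⟨fun s hs => (Pool.Agent.W189.NF.LSeries_hasProd E hs).1, h1, h2, fun A θ hA hθ => ?_⟩
  have h3 := dir_crit (a := co E) (σa := 2) (by norm_num) (co_sum E) hA hθ
  rw [← grows_iff, hyp_eq hθ] at h3
  exact h3

end Pool.Agent.Results.MP_7ed9c3_nt.GaussianCoefficients
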