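import Pool.Agent.TH942.ES.NF

/-!
# The continuation of the L-series of an elliptic curve over a number field to the half plane `Re s > 1`

Let `E : y² = x³ + a x + b` be an elliptic curve over a number field `K`, `a, b ∈ 𝓞_K`. For the primes `v`
which do not divide `6 (4 a³ + 27 b²)` let `N v` be the norm and `N_v + 1` the number of points modulo `v`
(`N_v` affine points). The Euler product `L(E, s)` over these primes converges for `Re s > 3/2`. For
`K ≠ ℚ` the continuation is not known in general. Neither the Euler factors at the finitely many other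
primes nor their inverses have poles for `Re s ≥ 1`, so they are irrelevant here.

With the weights `w_ρ(u) = (1/2πi) ∫ exp(z - u z^{1/ρ}) dz/z`, `ρ > 1`, consider the means

`S_ρ(Y) = ∑_v w_ρ(log N v / log Y) log ((N_v + 1) / N v)`, `N v ≤ exp ((log Y)^{ρ'})`

(`ρ' > ρ` is irrelevant, since `w_ρ` decays so fast). It is shown that the following are EQUIVALENT for
every `ρ > 1`: `L(E, s)` has a holomorphic continuation without zeros to the union of the half plane
`Re s > 3/2` and of the open sector `|arg (s - 1)| < π/(2ρ)`; and: for every `ε > 0` one has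
`S_ρ(Y) = O(exp(ε (log Y)^ρ))`. So `L(E, s)` has a holomorphic continuation without zeros to `Re s > 1` (up
to the central line) if and only if this bound holds for all `ρ > 1`. The trivial bound is
`exp(c (log Y)^ρ)` for some `c`.

So the existence of the continuation of `L(E, s)` to the right of the central point, together with the
absence of zeros there, is a statement about the growth of certain means of the numbers of points;
nothing is assumed about modularity and nothing about a continuation. The Tauberian theorem is proved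
in the library (`Pool.Agent.TH942.ES`, `Pool.Agent.TH942.SL`).
-/

set_option autoImplicit false

namespace Pool.Agent.Results.MP_7ed9c3_nt.HalfPlaneCriterion

open Filter Topology Set NumberField IsDedekindDomain

variable {K : Type} [Field K] [NumberField K]

/-- The norm of `v`. -/
noncomputable def nrm (v : HeightOneSpectrum (𝓞 K)) : ℕ := Ideal.absNorm v.asIdeal

/-- `v` does not divide `6 (4 a³ + 27 b²)`. -/
def Good (a b : 𝓞 K) (v : HeightOneSpectrum (𝓞 K)) : Prop :=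
  6 * (4 * a ^ 3 + 27 * b ^ 2) ∉ v.asIdeal

/-- The number of affine points of `y² = x³ + a x + b` modulo `v`. -/
noncomputable def pts (a b : 𝓞 K) (v : HeightOneSpectrum (𝓞 K)) : ℕ :=
  Nat.card {P : (𝓞 K ⧸ v.asIdeal) × (𝓞 K ⧸ v.asIdeal) //
    P.2 ^ 2 = P.1 ^ 3 + Ideal.Quotient.mk v.asIdeal a * P.1 + Ideal.Quotient.mk v.asIdeal b}

/-- The Euler factor `(1 - a_v (N v)^{-s} + (N v)^{1 - 2s})⁻¹`, `a_v = N v - N_v`. -/
noncomputable def factor (a b : 𝓞 K) (v : HeightOneSpectrum (𝓞 K)) (s : ℂ) : ℂ :=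
  (1 - ((nrm v : ℂ) - pts a b v) * (nrm v : ℂ) ^ (-s) + (nrm v : ℂ) ^ (1 - 2 * s))⁻¹

/-- `L(E, s)` has a holomorphic continuation without zeros to the union of `U` and the half plane
`Re s > 3/2`. -/
def Continues (a b : 𝓞 K) (U : Set ℂ) : Prop :=
  ∃ G : ℂ → ℂ, (∀ s : ℂ, s ∈ U ∨ 3 / 2 < s.re → DifferentiableAt ℂ G s ∧ G s ≠ 0) ∧
    ∀ s : ℂ, 3 / 2 < s.re → HasProd (fun v : {v // Good a b v} => factor a b v.1 s) (G s)

/-- The open sector `|arg (s - 1)| < π/(2ρ)` with vertex `1`. -/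
def Sector (ρ : ℝ) : Set ℂ := {s | s ≠ 1 ∧ |(s - 1).arg| < Real.pi / (2 * ρ)}

/-- The weight `w_ρ(u) = (1/2πi) ∫_{Re z = 1} exp(z - u z^{1/ρ}) dz/z`. -/
noncomputable def weight (ρ u : ℝ) : ℝ :=
  (2 * Real.pi)⁻¹ * ∫ t : ℝ, (Complex.exp ((1 + t * Complex.I) -
    u * (1 + t * Complex.I) ^ ((ρ⁻¹ : ℝ) : ℂ)) / (1 + t * Complex.I)).re

/-- The mean `∑ w_ρ(log N v / log Y) log ((N_v + 1) / N v)` over the good primes with
`N v ≤ exp ((log Y)^{ρ'})`. -/
noncomputable def mean (a b : 𝓞 K) (ρ ρ' Y : ℝ) : ℝ :=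
  ∑ᶠ (v : {v // Good a b v}) (_ : (nrm v.1 : ℝ) ≤ Real.exp (Real.log Y ^ ρ')),
    weight ρ (Real.log (nrm v.1) / Real.log Y) * Real.log (((pts a b v.1 : ℝ) + 1) / nrm v.1)

/-- The mean is `O(exp(ε (log Y)^ρ))` for every `ε > 0`. -/
def SmallMeans (a b : 𝓞 K) (ρ ρ' : ℝ) : Prop :=
  ∀ ε : ℝ, 0 < ε → ∃ C : ℝ, ∀ᶠ Y : ℝ in atTop,
    |mean a b ρ ρ' Y| ≤ C * Real.exp (ε * Real.log Y ^ ρ)

open Pool.Agent.TH942.ES in
theorem mean_eq (a b : 𝓞 K) (ρ ρ' Y : ℝ) : mean a b ρ ρ' Y =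
    SrE (fun v : {v // GoodV a b v} => Pool.Agent.H921R2.TatePole.nm v.1) (alV a b) ρ ρ' Y := by
  unfold mean SrE
  refine finsum_congr fun v => finsum_congr fun _ => ?_
  rw [curve_cv]
  rfl

open Pool.Agent.TH942.ES in
theorem prod_eq (a b : 𝓞 K) (s : ℂ) :
    (fun v : {v // Good a b v} => factor a b v.1 s) = fun v : {v // GoodV a b v} =>
      ∏ i, (1 - zv (fun v : {v // GoodV a b v} => Pool.Agent.H921R2.TatePole.nm v.1) (alV a b) v i *
        xv (fun v : {v // GoodV a b v} => Pool.Agent.H921R2.TatePole.nm v.1) v (s - 1))⁻¹ := by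
  funext v
  rw [curve_factor, add_sub_cancel]
  rfl

open Pool.Agent.TH942.ES in
theorem hasProd_iff (a b : 𝓞 K) {s : ℂ} (hs : 3 / 2 < s.re) (y : ℂ) :
    HasProd (fun v : {v // Good a b v} => factor a b v.1 s) y ↔
      y = LE (fun v : {v // GoodV a b v} => Pool.Agent.H921R2.TatePole.nm v.1) (alV a b) (s - 1) := by
  have h1 : 1 / 2 < (s - 1).re := by
    rw [Complex.sub_re, Complex.one_re]
    linarith
  have h2 := (curve_sys a b).hasProd h1
  rw [prod_eq]
  constructor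
  · intro h
    exact h.tprod_eq.symm
  · rintro rfl
    unfold Pool.Agent.TH942.ES.LE
    rw [h2.tprod_eq]
    exact h2

theorem sector_shift (ρ : ℝ) (s : ℂ) : s ∈ Sector ρ ↔ s - 1 ∈ Pool.Agent.TH942.SL.Sect ρ := by
  unfold Sector Pool.Agent.TH942.SL.Sect
  simp only [Set.mem_ofPred_eq, sub_ne_zero]

open Pool.Agent.TH942.ES in
theorem crit (a b : 𝓞 K) {ρ ρ' : ℝ} (hρ : 1 < ρ) (hρ' : ρ < ρ') :
    Continues a b (Sector ρ) ↔ SmallMeans a b ρ ρ' := by
  have E := curve_sys a b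
  constructor
  · rintro ⟨G, h1, h2⟩ ε hε
    have hd : ∀ s ∈ Pool.Agent.TH942.SL.Sect ρ, DifferentiableAt ℂ (fun s => G (s + 1)) s := by
      intro s hs
      have h3 : s + 1 ∈ Sector ρ := by rwa [sector_shift, add_sub_cancel_right]
      have h4 := (h1 (s + 1) (Or.inl h3)).1
      exact h4.comp s (by fun_prop)
    obtain ⟨C, hC⟩ := E.small_of_cont hρ hρ' hd (fun s hs => by
        have h3 : s + 1 ∈ Sector ρ := by rwa [sector_shift, add_sub_cancel_right]
        exact (h1 (s + 1) (Or.inl h3)).2) (σ := 1 / 2) (fun s hs h3 => by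
        have h4 : 3 / 2 < (s + 1).re := by
          rw [Complex.add_re, Complex.one_re]
          linarith
        have h5 := (hasProd_iff a b h4 _).1 (h2 (s + 1) h4)
        rw [add_sub_cancel_right] at h5
        exact h5) hε
    refine ⟨C, hC.mono fun Y hY => ?_⟩
    rw [mean_eq]
    exact hY
  · intro h
    obtain ⟨G, h1, h2, -⟩ := E.cont_of_small hρ hρ' (fun ε hε => by
      obtain ⟨C, hC⟩ := h ε hε
      refine ⟨C, hC.mono fun Y hY => ?_⟩
      rw [← mean_eq]
      exact hY)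
    have h3 : ∀ s : ℂ, 3 / 2 < s.re → 1 / 2 < (s - 1).re := fun s hs => by
      rw [Complex.sub_re, Complex.one_re]
      linarith
    refine ⟨fun s => G (s - 1), fun s hs => ?_, fun s hs => ?_⟩
    · have h4 := h1 (s - 1) (hs.imp (sector_shift ρ s).1 (h3 s))
      exact ⟨h4.1.comp s (by fun_prop), h4.2⟩
    · rw [hasProd_iff a b hs]
      exact h2 (s - 1) (h3 s hs)

theorem sector_sub {ρ : ℝ} (hρ : 1 < ρ) {s : ℂ} (hs : s ∈ Sector ρ) : 1 < s.re :=
  Pool.Agent.TH942.SL.re_of_sector hρ hs.1 hs.2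

open Pool.Agent.TH942.ES in
/-- **Theorem.** Let `K` be a number field, `a, b ∈ 𝓞_K`, `E : y² = x³ + a x + b`.

(1) For all `ρ > 1` and `ρ' > ρ`, `L(E, s)` has a holomorphic continuation without zeros to the union of the
half plane `Re s > 3/2` and the sector `|arg (s - 1)| < π/(2ρ)` if and only if the means `S_ρ(Y)` are
`O(exp(ε (log Y)^ρ))` for every `ε > 0`.

(2) `L(E, s)` has a holomorphic continuation without zeros to the half plane `Re s > 1` if and only if this
bound holds for all `ρ > 1` (and one, or all, `ρ' > ρ`). -/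
theorem result (a b : 𝓞 K) :
    (∀ ρ ρ' : ℝ, 1 < ρ → ρ < ρ' → (Continues a b (Sector ρ) ↔ SmallMeans a b ρ ρ')) ∧
    (Continues a b {s | 1 < s.re} ↔ ∀ ρ : ℝ, 1 < ρ → ∃ ρ' : ℝ, ρ < ρ' ∧ SmallMeans a b ρ ρ') ∧
    (Continues a b {s | 1 < s.re} ↔ ∀ ρ ρ' : ℝ, 1 < ρ → ρ < ρ' → SmallMeans a b ρ ρ') := by
  have h1 : ∀ ρ ρ' : ℝ, 1 < ρ → ρ < ρ' → (Continues a b (Sector ρ) ↔ SmallMeans a b ρ ρ') :=
    fun ρ ρ' hρ hρ' => crit a b hρ hρ'
  have h2 : Continues a b {s | 1 < s.re} → ∀ ρ ρ' : ℝ, 1 < ρ → ρ < ρ' → SmallMeans a b ρ ρ' := by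
    rintro ⟨G, h3, h4⟩ ρ ρ' hρ hρ'
    refine (h1 ρ ρ' hρ hρ').1 ⟨G, fun s hs => h3 s ?_, h4⟩
    exact hs.imp (fun h => sector_sub hρ h) id
  have h3 : (∀ ρ : ℝ, 1 < ρ → ∃ ρ' : ℝ, ρ < ρ' ∧ SmallMeans a b ρ ρ') →
      Continues a b {s | 1 < s.re} := by
    intro h
    obtain ⟨G, h4, h5⟩ := Pool.Agent.TH942.ES.Sys.glue
      (L := LE (fun v : {v // GoodV a b v} => Pool.Agent.H921R2.TatePole.nm v.1) (alV a b))
      (fun ρ hρ => by
        obtain ⟨ρ', hρ', h6⟩ := h ρ hρ
        obtain ⟨G, h7, h8, -⟩ := (curve_sys a b).cont_of_small hρ hρ' (fun ε hε => by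
          obtain ⟨C, hC⟩ := h6 ε hε
          refine ⟨C, hC.mono fun Y hY => ?_⟩
          rw [← mean_eq]
          exact hY)
        exact ⟨G, fun s hs => h7 s (Or.inl hs), fun s _ hs2 => h8 s hs2⟩)
    refine ⟨fun s => G (s - 1), fun s hs => ?_, fun s hs => ?_⟩
    · have h6 : 0 < (s - 1).re := by
        rw [Complex.sub_re, Complex.one_re]
        rcases hs with hs | hs
        · have : 1 < s.re := hs
          linarith
        · linarith
      have h7 := h4 (s - 1) h6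
      exact ⟨h7.1.comp s (by fun_prop), h7.2⟩
    · rw [hasProd_iff a b hs]
      refine h5 (s - 1) ?_
      rw [Complex.sub_re, Complex.one_re]
      linarith
  exact ⟨h1, ⟨fun h ρ hρ => ⟨ρ + 1, lt_add_one ρ, h2 h ρ _ hρ (lt_add_one ρ)⟩, h3⟩,
    ⟨h2, fun h => h3 fun ρ hρ => ⟨ρ + 1, lt_add_one ρ, h ρ _ hρ (lt_add_one ρ)⟩⟩⟩

end Pool.Agent.Results.MP_7ed9c3_nt.HalfPlaneCriterion
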