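import Pool.Agent.H2N.SY.Main

/-!
# Symmetric powers and the edge line of the L-series of an elliptic curve over any number field

`K` is any number field and `E` any elliptic curve over `K`, given by an integral Weierstrass equation
`W` with discriminant `≠ 0`; nothing is assumed about modularity.  `χ` is an irreducible Artin
representation of `K` (for `χ = 1` we have `L(E, s)` itself, for `χ` of order two its quadratic twists).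
`L(Sym^k E ⊗ χ, s)` converges absolutely for `Re s > k / 2 + 1`; the point of height `τ` of the edge line
is `s_{k,τ} = k / 2 + 1 + i τ`, for `k = 1` this is `3 / 2 + i τ`.  The theorem compares the poles and the
zeros of these functions at the same height; the main statement is (2): a pole (a zero) of
`L(E ⊗ χ, s)` at `3 / 2 + i τ`, `τ ≠ 0`, forces a pole (a zero) of `L(Sym³ E ⊗ χ, s)` at `5 / 2 + i τ`.

The definitions are in `Pool.Agent.H2N.SY.Defs`, `Pool.Agent.H2N.TL.Core` (`heightFactor`),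
`Pool.Agent.W540.BE.EC` (`trv`), `Pool.Agent.W353.AT.Defs`, `Pool.Agent.W353.EH.Defs` and
`Pool.Agent.W353.EF.Defs`: `IsSym W k χ τ B`: the `B v` are the Euler factors of `L(Sym^k E ⊗ χ, s)`
(arbitrary ones, regular at `s_{k,τ}`, at finitely many primes); `LFun B`: the Euler product;
`HasOrder k τ B m`: it has a meromorphic continuation to a neighbourhood of `s_{k,τ}`, of order `m` there;
`size k τ B ε`: `log |L(s_{k,τ} + ε)| / log (1 / ε)`; `heightFactor τ`: `1` if `τ = 0`, `2 / π` if not.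
-/

set_option autoImplicit false

namespace Pool.Agent.Results.MP_7ed9c3_nt.SymmetricPowersOnTheLine

open NumberField IsDedekindDomain Filter Topology Polynomial
open Pool.Agent.W353.EF (LFun)
open Pool.Agent.W353.EH (edgePoint size HasOrder)
open Pool.Agent.W353.AT (IsArtin)
open Pool.Agent.H2N.TL (heightFactor)
open Pool.Agent.H2N.SY (IsSym)

/-- Let `χ` be irreducible, `τ` real, `f = 1` if `τ = 0` and `f = 2 / π` if `τ ≠ 0`; let `U_k` be the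
Chebyshev polynomials of the second kind.
* (1) If `|c₀ + ∑ c_k U_k(t / 2)| ≤ b` for `|t| ≤ 2` (with `c₀ = 0` if `τ = 0`), then
  `|∑ c_k m_k| ≤ f b` for the orders `m_k` of `L(Sym^k E ⊗ χ, s)` at `s_{k,τ}`; without any continuation the
  same holds for the sizes, up to `η`, and the Euler products do not vanish at `s_{k,τ} + ε`.
* (2) `|4 m₁ - m₃| ≤ 5`, and `|4 m₁ - m₃| ≤ 3` if `τ ≠ 0`: then a pole of `L(E ⊗ χ, s)` at `3 / 2 + i τ` implies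
  a pole of `L(Sym³ E ⊗ χ, s)` at `5 / 2 + i τ`, and a zero implies a zero.
* (3) `|3 m₂ - m₄| ≤ 2` if `τ ≠ 0`: the same for `Sym²` and `Sym⁴`.
* (4) If `c₀ + ∑ c_k U_k(t / 2) ≥ 0` for `|t| ≤ 2`, then `c₀ - ∑ c_k m_k ≥ 0` for the orders at the real
  points and `χ = 1`; for example `|17 m₁ + 4 m₃| ≤ 14 - 12 m₂`, so that `m₁ = 0` if `m₂ = m₃ = 0`.
* (5) Let `m₂` be the order of `L(Sym² E, s)` at `s = 2`.  For finitely many different pairs `(χ_k, τ_k)`,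
  `χ_k` irreducible, the orders `m_k` of `L(E ⊗ χ_k, s)` at `3 / 2 + i τ_k` satisfy `∑ m_k² ≤ 1 - m₂`, and
  `2 ∑ m_k² ≤ 1 - m₂` if `τ_k + τ_l ≠ 0` for all `k`, `l` and the characters of the `χ_k` are real.  So, if `L(Sym² E, s)`
  has no pole at `s = 2` (expected if `E` has no complex multiplication), then `L(E, s)` and all its
  quadratic twists have neither poles nor zeros on the line `Re s = 3 / 2` off the real point, and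
  among all pairs `(χ, τ)` there is at most one with a pole or a zero, and it is simple. -/
theorem result (K : Type) [Field K] [NumberField K] (W : WeierstrassCurve (𝓞 K)) (hΔ : W.Δ ≠ 0) :
    (∀ (n : ℕ) (χ : Representation ℂ Gal(AlgebraicClosure K/K) (Fin n → ℂ)), IsArtin χ →
      χ.IsIrreducible → ∀ τ : ℝ,
      (∀ (S : Finset ℕ) (c : ℕ → ℝ) (c₀ b : ℝ), (τ = 0 → c₀ = 0) →
        (∀ t : ℝ, |t| ≤ 2 → |c₀ + ∑ k ∈ S, c k * (Chebyshev.U ℝ (k : ℤ)).eval (t / 2)| ≤ b) →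
        ∀ B : ℕ → HeightOneSpectrum (𝓞 K) → ℂ[X], (∀ k ∈ S, IsSym W k χ τ (B k)) →
          (∀ k ∈ S, ∀ᶠ ε : ℝ in 𝓝[>] 0, LFun (B k) (edgePoint k τ + ε) ≠ 0) ∧
          (∀ η : ℝ, 0 < η → ∀ᶠ ε : ℝ in 𝓝[>] 0,
            |∑ k ∈ S, c k * size k τ (B k) ε| ≤ b * heightFactor τ + η) ∧
          ∀ m : ℕ → ℤ, (∀ k ∈ S, HasOrder k τ (B k) (m k)) →
            |∑ k ∈ S, c k * m k| ≤ b * heightFactor τ) ∧
      (∀ B₁ B₃ : HeightOneSpectrum (𝓞 K) → ℂ[X], IsSym W 1 χ τ B₁ → IsSym W 3 χ τ B₃ →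
        (∀ η : ℝ, 0 < η → ∀ᶠ ε : ℝ in 𝓝[>] 0,
          |4 * size 1 τ B₁ ε - size 3 τ B₃ ε| ≤ 4 * Real.sqrt 2 * heightFactor τ + η) ∧
        ∀ m₁ m₃ : ℤ, HasOrder 1 τ B₁ m₁ → HasOrder 3 τ B₃ m₃ →
          |4 * m₁ - m₃| ≤ 5 ∧
          (τ ≠ 0 → |4 * m₁ - m₃| ≤ 3 ∧ (m₁ < 0 → m₃ < 0) ∧ (0 < m₁ → 0 < m₃))) ∧
      (τ ≠ 0 → ∀ B₂ B₄ : HeightOneSpectrum (𝓞 K) → ℂ[X], IsSym W 2 χ τ B₂ → IsSym W 4 χ τ B₄ →
        (∀ η : ℝ, 0 < η → ∀ᶠ ε : ℝ in 𝓝[>] 0,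
          |3 * size 2 τ B₂ ε - size 4 τ B₄ ε| ≤ 9 / Real.pi + η) ∧
        ∀ m₂ m₄ : ℤ, HasOrder 2 τ B₂ m₂ → HasOrder 4 τ B₄ m₄ →
          |3 * m₂ - m₄| ≤ 2 ∧ (m₂ < 0 → m₄ < 0) ∧ (0 < m₂ → 0 < m₄))) ∧
    (∀ (S : Finset ℕ) (c : ℕ → ℝ) (c₀ : ℝ),
      (∀ t : ℝ, |t| ≤ 2 → 0 ≤ c₀ + ∑ k ∈ S, c k * (Chebyshev.U ℝ (k : ℤ)).eval (t / 2)) →
      ∀ B : ℕ → HeightOneSpectrum (𝓞 K) → ℂ[X],
      (∀ k ∈ S, IsSym W k (1 : Representation ℂ Gal(AlgebraicClosure K/K) (Fin 1 → ℂ)) 0 (B k)) →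
        (∀ η : ℝ, 0 < η → ∀ᶠ ε : ℝ in 𝓝[>] 0, -η ≤ c₀ + ∑ k ∈ S, c k * size k 0 (B k) ε) ∧
        ∀ m : ℕ → ℤ, (∀ k ∈ S, HasOrder k 0 (B k) (m k)) → 0 ≤ c₀ - ∑ k ∈ S, c k * m k) ∧
    (∀ B₁ B₂ B₃ : HeightOneSpectrum (𝓞 K) → ℂ[X],
      IsSym W 1 (1 : Representation ℂ Gal(AlgebraicClosure K/K) (Fin 1 → ℂ)) 0 B₁ →
      IsSym W 2 (1 : Representation ℂ Gal(AlgebraicClosure K/K) (Fin 1 → ℂ)) 0 B₂ →
      IsSym W 3 (1 : Representation ℂ Gal(AlgebraicClosure K/K) (Fin 1 → ℂ)) 0 B₃ →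
      ∀ m₁ m₂ m₃ : ℤ, HasOrder 1 0 B₁ m₁ → HasOrder 2 0 B₂ m₂ → HasOrder 3 0 B₃ m₃ →
        |17 * m₁ + 4 * m₃| ≤ 14 - 12 * m₂) ∧
    ∀ B₂ : HeightOneSpectrum (𝓞 K) → ℂ[X],
      IsSym W 2 (1 : Representation ℂ Gal(AlgebraicClosure K/K) (Fin 1 → ℂ)) 0 B₂ →
      ∀ (κ : Type) [Fintype κ] (n : κ → ℕ)
        (χ : ∀ k, Representation ℂ Gal(AlgebraicClosure K/K) (Fin (n k) → ℂ)) (τ : κ → ℝ),
        (∀ k, IsArtin (χ k)) → (∀ k, (χ k).IsIrreducible) →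
        (∀ k k', k ≠ k' → τ k = τ k' → IsEmpty ((χ k).Equiv (χ k'))) →
        ∀ B : κ → HeightOneSpectrum (𝓞 K) → ℂ[X], (∀ k, IsSym W 1 (χ k) (τ k) (B k)) →
          (∀ η : ℝ, 0 < η → ∀ᶠ ε : ℝ in 𝓝[>] 0,
            ∑ k, (size 1 (τ k) (B k) ε) ^ 2 ≤ 1 + size 2 0 B₂ ε + η) ∧
          ∀ (m₂ : ℤ) (m : κ → ℤ), HasOrder 2 0 B₂ m₂ →
            (∀ k, HasOrder 1 (τ k) (B k) (m k)) → ∑ k, m k ^ 2 ≤ 1 - m₂ ∧
              ((∀ k k', τ k + τ k' ≠ 0) → (∀ k g, ((χ k).character g).im = 0) →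
                2 * ∑ k, m k ^ 2 ≤ 1 - m₂) := by
  refine ⟨fun n χ hχ hirr τ => ⟨fun S c c₀ b hc₀ hb B hB =>
    Pool.Agent.H2N.SY.sym_ineq hΔ χ hχ hirr τ S c c₀ b hc₀ hb B hB,
    fun B₁ B₃ h₁ h₃ => ⟨(Pool.Agent.H2N.SY.third hΔ χ hχ hirr τ h₁ h₃).1, fun m₁ m₃ g₁ g₃ => ?_⟩,
    fun hτ B₂ B₄ h₂ h₄ => ⟨(Pool.Agent.H2N.SY.fourth hΔ χ hχ hirr hτ h₂ h₄).1,
      fun m₂ m₄ g₂ g₄ => ?_⟩⟩,
    fun S c c₀ hb B hB => Pool.Agent.H2N.SY.positive hΔ S c c₀ hb B hB,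
    fun B₁ B₂ B₃ h₁ h₂ h₃ m₁ m₂ m₃ g₁ g₂ g₃ =>
      Pool.Agent.H2N.SY.real_point hΔ h₁ h₂ h₃ m₁ m₂ m₃ g₁ g₂ g₃,
    fun B₂ hB₂ κ _ n χ τ hχ hirr hne B hB =>
      ⟨(Pool.Agent.H2N.SY.bessel_all hΔ hB₂ χ hχ hirr τ hne B hB).1, fun m₂ m hm₂ hm =>
        ⟨(Pool.Agent.H2N.SY.bessel_all hΔ hB₂ χ hχ hirr τ hne B hB).2 m₂ m hm₂ hm,
          fun hτ hreal => Pool.Agent.H2N.SY.bessel_sym_real hΔ hB₂ χ hχ hirr τ hne hτ hreal B hB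
            m₂ m hm₂ hm⟩⟩⟩
  · obtain ⟨h5, h3⟩ := (Pool.Agent.H2N.SY.third hΔ χ hχ hirr τ h₁ h₃).2 m₁ m₃ g₁ g₃
    refine ⟨h5, fun hτ => ?_⟩
    have h6 := h3 hτ
    have h7 := abs_le.1 h6
    exact ⟨h6, fun h => by omega, fun h => by omega⟩
  · have h6 := (Pool.Agent.H2N.SY.fourth hΔ χ hχ hirr hτ h₂ h₄).2 m₂ m₄ g₂ g₄
    have h7 := abs_le.1 h6
    exact ⟨h6, fun h => by omega, fun h => by omega⟩

end Pool.Agent.Results.MP_7ed9c3_nt.SymmetricPowersOnTheLine
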