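import Pool.Agent.V11217.NWI

/-!
# The continuation of the L-series of an elliptic curve and its values at the integers

Let `E : y² = x³ + a x + b` be an elliptic curve over a number field `K`, `a, b ∈ 𝓞_K`. For the primes `v`
which do not divide `6 (4 a³ + 27 b²)` let `N v` be the norm and `N_v + 1` the number of points modulo `v`
(`N_v` affine points). At finitely many other primes (the finite set `S`) let the Euler factors be
`∏ (1 - β_{v,i} N v^{-s})⁻¹` with two arbitrary numbers of absolute value at most `N v`; the true Euler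
factors at the primes dividing `6 (4 a³ + 27 b²)` are of this form (with `|β_{v,i}| ≤ √(N v)`), so the L-series
`L(E, s)` is among the functions `L` considered here. It converges for `Re s > 3/2`. For general `K` no
continuation is known, and nothing is assumed about it here, nor about modularity.

Only the VALUES `L(2), L(3), L(4), …` at the integers are used. For `h, n ≥ 1` let

`Δ(h, n) = ∑_{k ≤ n} (-1)^k (n choose k) L(2 + h k)`

be the `n`-th difference with step `h` at the point `2`. It is shown: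

1. For every `c ≥ 1/2`, `L` has a holomorphic continuation to the half plane `Re s > 2 - c` which is of
   polynomial growth in `Re s ≥ 2 - α` for every `α < c`, IF AND ONLY IF for every `0 < α < c` there are `C, κ`
   with `|Δ(h, n)| ≤ C h^κ n^{-α/h}` for all `h, n ≥ 1`.
2. `L` has an entire continuation of polynomial growth in every right half plane (as the conjecture of Hasse
   and Weil and the functional equation predict) IF AND ONLY IF this holds for every `α > 0`.
3. One step suffices for the existence of the continuation: if `∑_{k ≤ n} (-1)^k (n choose k) L(2 + k)` is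
   `O(n^{-α})` for every `α`, then `L` has an entire continuation.

The trivial bound is `|Δ(h, n)| ≤ C n^{-α/h}` for `α < 1/2`.

Proof. `L(2 + w)` is an absolutely convergent general Dirichlet series for `Re w ≥ -1/4` (the exponential of
one). If the differences are small, then Newton's interpolation series with step `h` converges in the larger
half plane, where all these series agree, and the series with the step `h ∼ |w|` gives the growth. Conversely
the differences are the integrals of Nörlund and Rice, `2π Δ(h, n) = ∫ L(2 - h s) B(s, n + 1)`, over the line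
`Re s = α/h`, with the beta function `B`.
-/

set_option autoImplicit false

namespace Pool.Agent.Results.MP_7ed9c3_nt.ValuesAtIntegers

open Filter Topology NumberField IsDedekindDomain

variable {K : Type} [Field K] [NumberField K]

/-- The norm of `v`. -/
noncomputable def nrm (v : HeightOneSpectrum (𝓞 K)) : ℕ := Ideal.absNorm v.asIdeal

/-- `v` does not divide `6 (4 a³ + 27 b²)`. -/
def Good (a b : 𝓞 K) (v : HeightOneSpectrum (𝓞 K)) : Prop :=
  6 * (4 * a ^ 3 + 27 * b ^ 2) ∉ v.asIdeal

/-- The number of affine points of `y² = x³ + a x + b` modulo `v`. -/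
noncomputable def pts (a b : 𝓞 K) (v : HeightOneSpectrum (𝓞 K)) : ℕ :=
  Nat.card {P : (𝓞 K ⧸ v.asIdeal) × (𝓞 K ⧸ v.asIdeal) //
    P.2 ^ 2 = P.1 ^ 3 + Ideal.Quotient.mk v.asIdeal a * P.1 + Ideal.Quotient.mk v.asIdeal b}

/-- The Euler factor `(1 - a_v (N v)^{-s} + (N v)^{1 - 2s})⁻¹`, `a_v = N v - N_v`. -/
noncomputable def factor (a b : 𝓞 K) (v : HeightOneSpectrum (𝓞 K)) (s : ℂ) : ℂ :=
  (1 - ((nrm v : ℂ) - pts a b v) * (nrm v : ℂ) ^ (-s) + (nrm v : ℂ) ^ (1 - 2 * s))⁻¹

/-- The Euler product: the factors at all good primes, and at the primes of the finite set `S` the factors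
with the inverse roots `β v i`. -/
noncomputable def euler (a b : 𝓞 K) (S : Finset (HeightOneSpectrum (𝓞 K)))
    (β : HeightOneSpectrum (𝓞 K) → Fin 2 → ℂ) (s : ℂ) : ℂ :=
  (∏' v : {v // Good a b v}, factor a b v.1 s) * ∏ v ∈ S, ∏ i, (1 - β v i * (nrm v : ℂ) ^ (-s))⁻¹

/-- The `n`-th difference with step `h` of the values `L(2), L(2 + h), L(2 + 2 h), …`. -/
noncomputable def difference (L : ℂ → ℂ) (h n : ℕ) : ℂ :=
  ∑ k ∈ Finset.range (n + 1), (-1 : ℂ) ^ k * (n.choose k : ℂ) * L (2 + h * k)

/-- The bound `C h^κ n^{-α/h}` for the differences, for all steps `h` and all orders `n`. -/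
def SmallDifferences (L : ℂ → ℂ) (α : ℝ) : Prop :=
  ∃ (C : ℝ) (κ : ℕ), ∀ h n : ℕ, 1 ≤ h → 1 ≤ n →
    ‖difference L h n‖ ≤ C * (h : ℝ) ^ κ * (n : ℝ) ^ (-(α / h))

/-- `L(s)`, `Re s > 3/2`, has a holomorphic continuation to `Re s > 2 - c` which is of polynomial growth in
`Re s ≥ 2 - α` for every `α < c`. -/
def Continues (L : ℂ → ℂ) (c : ℝ) : Prop :=
  ∃ G : ℂ → ℂ, (∀ s : ℂ, 2 - c < s.re → DifferentiableAt ℂ G s) ∧ (∀ s : ℂ, 3 / 2 < s.re → G s = L s) ∧
    ∀ α : ℝ, α < c → ∃ (B : ℝ) (κ : ℕ), ∀ s : ℂ, 2 - α ≤ s.re → ‖G s‖ ≤ B * (1 + ‖s‖) ^ κ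

/-- `L(s)`, `Re s > 3/2`, has an entire continuation of polynomial growth in every right half plane. -/
def ContinuesEverywhere (L : ℂ → ℂ) : Prop :=
  ∃ G : ℂ → ℂ, Differentiable ℂ G ∧ (∀ s : ℂ, 3 / 2 < s.re → G s = L s) ∧
    ∀ σ : ℝ, ∃ (B : ℝ) (κ : ℕ), ∀ s : ℂ, σ ≤ s.re → ‖G s‖ ≤ B * (1 + ‖s‖) ^ κ

open Pool.Agent.V11217.NW

theorem euler_eq (a b : 𝓞 K) (S : Finset (HeightOneSpectrum (𝓞 K)))
    (β : HeightOneSpectrum (𝓞 K) → Fin 2 → ℂ) : euler a b S β = Lw a b S β := by
  funext s
  unfold euler Lw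
  congr 1
  unfold Pool.Agent.TH942.ES.LE
  refine tprod_congr fun v => ?_
  have h := Pool.Agent.TH942.ES.curve_factor (a := a) (b := b) v (s - 1)
  rw [add_sub_cancel] at h
  exact h.symm

theorem diff_eq (L : ℂ → ℂ) (h n : ℕ) : D (fun w => L (2 + w)) h n = difference L h n := by
  unfold D difference
  refine Finset.sum_congr rfl fun k _ => ?_
  push_cast
  rfl

theorem small_iff (L : ℂ → ℂ) (α : ℝ) :
    SmallDifferences L α ↔ ∃ (C : ℝ) (κ : ℕ), DB (fun w => L (2 + w)) α C κ := by
  unfold SmallDifferences DB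
  simp only [diff_eq]

/-- two continuations which agree for `Re s > 2` agree for `Re s > 3/2` -/
theorem agree {G L : ℂ → ℂ} {c : ℝ} (hc : 1 / 2 ≤ c) (hG : ∀ s : ℂ, 2 - c < s.re → DifferentiableAt ℂ G s)
    (hL : ∀ s : ℂ, 3 / 2 < s.re → DifferentiableAt ℂ L s) (h : ∀ s : ℂ, 2 < s.re → G s = L s) :
    ∀ s : ℂ, 3 / 2 < s.re → G s = L s := by
  have hU : IsOpen {z : ℂ | 3 / 2 < z.re} := isOpen_lt continuous_const Complex.continuous_re
  have hpre : IsPreconnected {z : ℂ | 3 / 2 < z.re} := (convex_halfSpace_re_gt (3 / 2)).isPreconnected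
  have hA1 : AnalyticOnNhd ℂ G {z : ℂ | 3 / 2 < z.re} :=
    DifferentiableOn.analyticOnNhd (fun z hz => (hG z (by
      have : 3 / 2 < z.re := hz
      linarith)).differentiableWithinAt) hU
  have hA2 : AnalyticOnNhd ℂ L {z : ℂ | 3 / 2 < z.re} :=
    DifferentiableOn.analyticOnNhd (fun z hz => (hL z hz).differentiableWithinAt) hU
  have hev : G =ᶠ[𝓝 (3 : ℂ)] L := by
    have : {z : ℂ | 2 < z.re} ∈ 𝓝 (3 : ℂ) :=
      (isOpen_lt continuous_const Complex.continuous_re).mem_nhds (by simp; norm_num)
    filter_upwards [this] with z hz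
    exact h z hz
  exact fun s hs => hA1.eqOn_of_preconnected_of_eventuallyEq hA2 hpre
    (z₀ := 3) (by simp) hev hs

theorem cont_iff (L : ℂ → ℂ) {c : ℝ} (hc : 1 / 2 ≤ c)
    (hL : ∀ s : ℂ, 3 / 2 < s.re → DifferentiableAt ℂ L s) :
    Continues L c ↔ ∃ Gf : ℂ → ℂ, Continuation (fun w => L (2 + w)) c Gf := by
  constructor
  · rintro ⟨G, h1, h2, h3⟩
    refine ⟨fun w => G (2 + w), fun w hw => ?_, fun w hw => ?_, fun α hα => ?_⟩
    · have h4 : DifferentiableAt ℂ G (2 + w) := h1 _ (by simp; linarith)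
      exact h4.comp w (by fun_prop)
    · exact h2 _ (by simp; linarith)
    · obtain ⟨B, κ, h4⟩ := h3 α hα
      refine ⟨|B| * 3 ^ κ, κ, fun w hw => (h4 _ (by simp; linarith)).trans ?_⟩
      have h5 : 1 + ‖2 + w‖ ≤ 3 * (1 + ‖w‖) := by
        have := norm_add_le (2 : ℂ) w
        have h6 : ‖(2 : ℂ)‖ = 2 := by simp
        rw [h6] at this
        have := norm_nonneg w
        linarith
      calc B * (1 + ‖2 + w‖) ^ κ ≤ |B| * (3 * (1 + ‖w‖)) ^ κ :=
            mul_le_mul (le_abs_self B) (pow_le_pow_left₀ (by positivity) h5 _) (by positivity)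
              (abs_nonneg _)
        _ = _ := by rw [mul_pow]; ring
  · rintro ⟨G, h1, h2, h3⟩
    have h0 : ∀ s : ℂ, 2 - c < s.re → DifferentiableAt ℂ (fun s => G (s - 2)) s := by
      intro s hs
      have h4 : DifferentiableAt ℂ G (s - 2) := h1 _ (by simp; linarith)
      exact h4.comp s (by fun_prop)
    refine ⟨fun s => G (s - 2), h0, ?_, fun α hα => ?_⟩
    · refine agree hc h0 hL fun s hs => ?_
      have e1 : 2 + (s - 2) = s := by ring
      rw [h2 (s - 2) (by simp; linarith)]
      beta_reduce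
      rw [e1]
    · obtain ⟨B, κ, h4⟩ := h3 α hα
      refine ⟨|B| * 3 ^ κ, κ, fun w hw => (h4 _ (by simp; linarith)).trans ?_⟩
      have h5 : 1 + ‖w - 2‖ ≤ 3 * (1 + ‖w‖) := by
        have := norm_sub_le w (2 : ℂ)
        have h6 : ‖(2 : ℂ)‖ = 2 := by simp
        rw [h6] at this
        have := norm_nonneg w
        linarith
      calc B * (1 + ‖w - 2‖) ^ κ ≤ |B| * (3 * (1 + ‖w‖)) ^ κ :=
            mul_le_mul (le_abs_self B) (pow_le_pow_left₀ (by positivity) h5 _) (by positivity)
              (abs_nonneg _)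
        _ = _ := by rw [mul_pow]; ring

/-- **Theorem.** Let `K` be a number field, `a, b ∈ 𝓞_K`, `E : y² = x³ + a x + b`, and let `L` be the Euler
product over the primes not dividing `6 (4 a³ + 27 b²)`, with arbitrary Euler factors with inverse roots of
absolute value at most `N v` at a finite set `S` of primes.

(1) For every `c ≥ 1/2`, `L` has a holomorphic continuation to `Re s > 2 - c`, of polynomial growth in
`Re s ≥ 2 - α` for all `α < c`, if and only if for all `0 < α < c` the differences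
`∑_{k ≤ n} (-1)^k (n choose k) L(2 + h k)` are `O(h^κ n^{-α/h})` for some `κ`, uniformly in `h, n ≥ 1`.

(2) `L` has an entire continuation of polynomial growth in every right half plane if and only if this holds
for all `α > 0`.

(3) If `∑_{k ≤ n} (-1)^k (n choose k) L(2 + k) = O(n^{-α})` for every `α`, then `L` has an entire
continuation. -/
theorem result (a b : 𝓞 K) (S : Finset (HeightOneSpectrum (𝓞 K)))
    (β : HeightOneSpectrum (𝓞 K) → Fin 2 → ℂ) (hβ : ∀ v ∈ S, ∀ i, ‖β v i‖ ≤ nrm v) :
    (∀ c : ℝ, 1 / 2 ≤ c → (Continues (euler a b S β) c ↔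
      ∀ α : ℝ, 0 < α → α < c → SmallDifferences (euler a b S β) α)) ∧
    (ContinuesEverywhere (euler a b S β) ↔ ∀ α : ℝ, 0 < α → SmallDifferences (euler a b S β) α) ∧
    ((∀ α : ℝ, ∃ C : ℝ, ∀ n : ℕ, 1 ≤ n → ‖difference (euler a b S β) 1 n‖ ≤ C * (n : ℝ) ^ (-α)) →
      ∃ G : ℂ → ℂ, Differentiable ℂ G ∧ ∀ s : ℂ, 3 / 2 < s.re → G s = euler a b S β s) := by
  have hL : ∀ s : ℂ, 3 / 2 < s.re → DifferentiableAt ℂ (euler a b S β) s := by
    rw [euler_eq]
    exact fun s hs => Lw_diff a b S hβ hs
  have h1 : ∀ c : ℝ, 1 / 2 ≤ c → (Continues (euler a b S β) c ↔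
      ∀ α : ℝ, 0 < α → α < c → SmallDifferences (euler a b S β) α) := by
    intro c hc
    rw [cont_iff _ hc hL]
    simp only [small_iff]
    have := curve_criterion a b S hβ (c₀ := c) (by linarith)
    rw [← euler_eq] at this
    exact this
  obtain ⟨ι, hι, cc, l, R⟩ := total_rep a b S hβ
  rw [← euler_eq] at R
  refine ⟨h1, ⟨?_, ?_⟩, ?_⟩
  · rintro ⟨G, g1, g2, g3⟩ α hα
    refine (h1 (α + 1) (by linarith)).1 ⟨G, fun s _ => g1 s, g2, fun α' _ => ?_⟩ α hα (by linarith)
    exact g3 (2 - α')
  · intro H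
    -- all continuations are the Newton series
    have h2 : ∀ c : ℝ, 0 < c → _ := fun c hc =>
      continues R (by norm_num) hc (fun α hα _ => (small_iff _ α).1 (H α hα))
    refine ⟨fun s => G (fun w => euler a b S β (2 + w)) 1 (s - 2), fun s => ?_, ?_, fun σ => ?_⟩
    · have h3 := (h2 (|2 - s.re| + 1) (by positivity)).1 (s - 2) (by
        simp only [Complex.sub_re, Complex.re_ofNat]
        have := le_abs_self (2 - s.re)
        linarith)
      exact DifferentiableAt.comp (f := fun s : ℂ => s - 2) s h3 (by fun_prop)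
    · refine agree (c := 1) (by norm_num) (fun s hs => ?_) hL fun s hs => ?_
      · have h3 := (h2 1 one_pos).1 (s - 2) (by
          simp only [Complex.sub_re, Complex.re_ofNat]
          linarith)
        exact DifferentiableAt.comp (f := fun s : ℂ => s - 2) s h3 (by fun_prop)
      · rw [(h2 1 one_pos).2.1 (s - 2) (by
          simp only [Complex.sub_re, Complex.re_ofNat]
          linarith)]
        congr 1
        ring
    · obtain ⟨B, κ, h4⟩ := (h2 (|2 - σ| + 1) (by positivity)).2.2 (2 - σ) (by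
        have := le_abs_self (2 - σ)
        linarith)
      refine ⟨|B| * 3 ^ κ, κ, fun w hw => (h4 _ (by
        simp only [Complex.sub_re, Complex.re_ofNat]
        linarith)).trans ?_⟩
      have h5 : 1 + ‖w - 2‖ ≤ 3 * (1 + ‖w‖) := by
        have := norm_sub_le w (2 : ℂ)
        have h6 : ‖(2 : ℂ)‖ = 2 := by simp
        rw [h6] at this
        have := norm_nonneg w
        linarith
      calc B * (1 + ‖w - 2‖) ^ κ ≤ |B| * (3 * (1 + ‖w‖)) ^ κ :=
            mul_le_mul (le_abs_self B) (pow_le_pow_left₀ (by positivity) h5 _) (by positivity)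
              (abs_nonneg _)
        _ = _ := by rw [mul_pow]; ring
  · intro H
    have h2 := one_step R (by norm_num) (fun α => by
      obtain ⟨C, hC⟩ := H α
      exact ⟨C, fun n hn => by rw [diff_eq]; exact hC n hn⟩)
    refine ⟨fun s => G (fun w => euler a b S β (2 + w)) 1 (s - 2), fun s => ?_, ?_⟩
    · exact DifferentiableAt.comp (f := fun s : ℂ => s - 2) s (h2.1 (s - 2)) (by fun_prop)
    · refine agree (c := 1) (by norm_num) (fun s hs => ?_) hL fun s hs => ?_
      · exact DifferentiableAt.comp (f := fun s : ℂ => s - 2) s (h2.1 (s - 2)) (by fun_prop)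
      · rw [h2.2 (s - 2) (by
          simp only [Complex.sub_re, Complex.re_ofNat]
          linarith)]
        congr 1
        ring

end Pool.Agent.Results.MP_7ed9c3_nt.ValuesAtIntegers
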